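import Mathlib
import Pool.Agent.R845.E3.All
import Pool.Agent.Helper2K9.Cub.Iso

/-! # Smooth cubics: reflections in the points of a linear subspace, conics through a point -/

set_option autoImplicit false

namespace Pool.Agent.Helper52K9.CUB

open MvPolynomial Pool.Agent.TH314.PD IntermediateField Module Pool.Agent.Y201.C3
open Pool.Agent.R845.E3 Pool.Agent.R845.T2

noncomputable section

/-- the cubic on the plane spanned by a conic through `x` and `a` -/
theorem shape_pt {N : ℕ} {F : MvPolynomial (Fin N) ℂ} (hF : F.IsHomogeneous 3)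
    {M : Type} [Field M] [Algebra ℂ M] (a β x : Fin N → M)
    (h0 : aeval (fun i => Polynomial.C (x i) + Polynomial.X * Polynomial.C (β i) +
      Polynomial.X ^ 2 * Polynomial.C (a i)) F = 0) :
    ∃ l1 l2 l3 : M, ∀ A B C : Polynomial M,
      aeval (fun i => A * Polynomial.C (a i) + B * Polynomial.C (β i) +
        C * Polynomial.C (x i)) F =
        (B ^ 2 - A * C) * (Polynomial.C l1 * A + Polynomial.C l2 * B + Polynomial.C l3 * C) := by
  classical
  obtain ⟨T, hT, hFT⟩ := exists_tri F hF
  have hev : ∀ {R : Type} [CommRing R] [Algebra ℂ R] (v : Fin N → R),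
      aeval v F = Bg T v v v := by
    intro R _ _ v
    conv_lhs => rw [hFT]
    exact aeval_frmG T v
  have hC : ∀ u v w : Fin N → M, Bg T (fun i => Polynomial.C (u i)) (fun i => Polynomial.C (v i))
      (fun i => Polynomial.C (w i)) = Polynomial.C (Bg T u v w) := fun u v w =>
    (map_Bg (Polynomial.CAlgHom : M →ₐ[ℂ] Polynomial M) T u v w).symm
  have hgen : ∀ A B C : Polynomial M,
      aeval (fun i => A * Polynomial.C (a i) + B * Polynomial.C (β i) +
        C * Polynomial.C (x i)) F =
      A ^ 3 * Polynomial.C (Bg T a a a) + 3 * A ^ 2 * B * Polynomial.C (Bg T a a β) +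
      3 * A ^ 2 * C * Polynomial.C (Bg T a a x) +
      3 * A * B ^ 2 * Polynomial.C (Bg T a β β) + 6 * A * B * C * Polynomial.C (Bg T a β x) +
      3 * A * C ^ 2 * Polynomial.C (Bg T a x x) +
      B ^ 3 * Polynomial.C (Bg T β β β) + 3 * B ^ 2 * C * Polynomial.C (Bg T β β x) +
      3 * B * C ^ 2 * Polynomial.C (Bg T β x x) + C ^ 3 * Polynomial.C (Bg T x x x) := by
    intro A B C
    rw [hev, Bg_span3 hT (fun i => Polynomial.C (a i)) (fun i => Polynomial.C (β i))
      (fun i => Polynomial.C (x i)), hC, hC, hC, hC, hC, hC, hC, hC, hC, hC]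
  have hk := hgen (Polynomial.X ^ 2) Polynomial.X 1
  rw [show (fun i => Polynomial.X ^ 2 * Polynomial.C (a i) + Polynomial.X * Polynomial.C (β i) +
        1 * Polynomial.C (x i)) = fun i => Polynomial.C (x i) + Polynomial.X * Polynomial.C (β i) +
      Polynomial.X ^ 2 * Polynomial.C (a i) from funext fun i => by ring, h0] at hk
  set e300 := Bg T a a a with h300
  set e210 := Bg T a a β with h210
  set e201 := Bg T a a x with h201
  set e120 := Bg T a β β with h120
  set e111 := Bg T a β x with h111
  set e102 := Bg T a x x with h102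
  set e030 := Bg T β β β with h030
  set e021 := Bg T β β x with h021
  set e012 := Bg T β x x with h012
  set e003 := Bg T x x x with h003
  have o3 : (3 : Polynomial M) = Polynomial.C (3 : M) := rfl
  have o6 : (6 : Polynomial M) = Polynomial.C (6 : M) := rfl
  have hk2 : Polynomial.C e003 + Polynomial.C (3 * e012) * Polynomial.X +
      Polynomial.C (3 * e102 + 3 * e021) * Polynomial.X ^ 2 +
      Polynomial.C (6 * e111 + e030) * Polynomial.X ^ 3 +
      Polynomial.C (3 * e201 + 3 * e120) * Polynomial.X ^ 4 +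
      Polynomial.C (3 * e210) * Polynomial.X ^ 5 + Polynomial.C e300 * Polynomial.X ^ 6 =
      (0 : Polynomial M) := by
    rw [hk]
    simp only [map_add, map_mul]
    rw [← o3, ← o6]
    ring
  have hz : ∀ k : ℕ, (Polynomial.C e003 + Polynomial.C (3 * e012) * Polynomial.X +
      Polynomial.C (3 * e102 + 3 * e021) * Polynomial.X ^ 2 +
      Polynomial.C (6 * e111 + e030) * Polynomial.X ^ 3 +
      Polynomial.C (3 * e201 + 3 * e120) * Polynomial.X ^ 4 +
      Polynomial.C (3 * e210) * Polynomial.X ^ 5 +
      Polynomial.C e300 * Polynomial.X ^ 6 : Polynomial M).coeff k = 0 := by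
    intro k
    rw [hk2, Polynomial.coeff_zero]
  have z0 := hz 0
  have z1 := hz 1
  have z2 := hz 2
  have z3 := hz 3
  have z4 := hz 4
  have z5 := hz 5
  have z6 := hz 6
  simp only [Polynomial.coeff_add, Polynomial.coeff_C_mul, Polynomial.coeff_X,
    Polynomial.coeff_X_pow, Polynomial.coeff_C] at z0 z1 z2 z3 z4 z5 z6
  have hch : CharZero M := charZero_of_injective_algebraMap (algebraMap ℂ M).injective
  norm_num at z0 z1 z2 z3 z4 z5 z6
  refine ⟨3 * e120, e030, 3 * e021, ?_⟩
  intro A B C
  rw [hgen]
  have c0 := congrArg Polynomial.C z0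
  have c1 := congrArg Polynomial.C z1
  have c2 := congrArg Polynomial.C z2
  have c3 := congrArg Polynomial.C z3
  have c4 := congrArg Polynomial.C z4
  have c5 := congrArg Polynomial.C z5
  have c6 := congrArg Polynomial.C z6
  have o3 : Polynomial.C (3 : M) = 3 := rfl
  have o6 : Polynomial.C (6 : M) = 6 := rfl
  simp only [map_add, map_mul, map_zero, o3, o6] at c0 c1 c2 c3 c4 c5 c6 ⊢
  linear_combination C ^ 3 * c0 + 3 * B * C ^ 2 * c1 + A * C ^ 2 * c2 +
    A * B * C * c3 + A ^ 2 * C * c4 + 3 * A ^ 2 * B * c5 + A ^ 3 * c6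

/-- reflection in a point `a` of a linear subspace `W`; if the reflected point is not a generic
point of odd degree, then the line through the two points is a generic point of odd degree of
the projective space -/
theorem law0 {r : ℕ} {F : MvPolynomial (Fin (r + 1)) ℂ} (hF : F.IsHomogeneous 3) (hsm : Sm F)
    {M : Type} [Field M] [Algebra ℂ M] (x a : Fin (r + 1) → M) (hxa : LinearIndependent M ![x, a])
    (hG : Gp F x) (hodd : Odd (finrank (ratioField x) M)) (ha : aeval a F = 0)
    (hpn : ¬ Gp F a) :
    ∃ A B : M, B ≠ 0 ∧ aeval (fun j => Polynomial.C (x j) + Polynomial.X * Polynomial.C (a j)) F =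
        Polynomial.C A * Polynomial.X + Polynomial.C B * Polynomial.X ^ 2 ∧
      ((Gp F (fun j => B * x j - A * a j) ∧
        Odd (finrank (ratioField fun j => B * x j - A * a j) M)) ∨
      ((∀ (e : ℕ) (H : MvPolynomial (Fin (r + 1)) ℂ), H.IsHomogeneous e →
        aeval (fun j => algebraMap (Polynomial M) (FractionRing (Polynomial M))
          (Polynomial.C (x j) + Polynomial.X * Polynomial.C (a j))) H = 0 → H = 0) ∧
      Odd (finrank (ratioField fun j => algebraMap (Polynomial M) (FractionRing (Polynomial M))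
        (Polynomial.C (x j) + Polynomial.X * Polynomial.C (a j)))
          (FractionRing (Polynomial M))))) := by
  classical
  have tan : S_TAN := tan_of div (nt Pool.Agent.Y201.LI.hT1) fi fd
  have hodd2 : ¬ 2 ∣ finrank (ratioField x) M := fun h =>
    (Nat.not_even_iff_odd.2 hodd) (even_iff_two_dvd.2 h)
  obtain ⟨T, hT, hFT⟩ := exists_tri F hF
  have hev : ∀ {R : Type} [CommRing R] [Algebra ℂ R] (v : Fin (r + 1) → R),
      aeval v F = Bg T v v v := by
    intro R _ _ v
    conv_lhs => rw [hFT]
    exact aeval_frmG T v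
  have hC : ∀ u v w : Fin (r + 1) → M, Bg T (fun i => Polynomial.C (u i))
      (fun i => Polynomial.C (v i)) (fun i => Polynomial.C (w i)) =
      Polynomial.C (Bg T u v w) := fun u v w =>
    (map_Bg (Polynomial.CAlgHom : M →ₐ[ℂ] Polynomial M) T u v w).symm
  have hline : aeval (fun j => Polynomial.C (x j) + Polynomial.X * Polynomial.C (a j)) F =
        Polynomial.C (3 * Bg T x x a) * Polynomial.X +
        Polynomial.C (3 * Bg T x a a) * Polynomial.X ^ 2 := by
    have h1 := Bg_span3 hT (fun i => Polynomial.C (x i)) (fun i => Polynomial.C (a i))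
      (fun i => Polynomial.C (a i)) (1 : Polynomial M) Polynomial.X 0
    rw [show (fun i => 1 * Polynomial.C (x i) + Polynomial.X * Polynomial.C (a i) +
      0 * Polynomial.C (a i)) = fun i => Polynomial.C (x i) + Polynomial.X * Polynomial.C (a i)
      from funext fun i => by ring] at h1
    have e1 : Bg T x x x = 0 := by rw [← hev, hG.1]
    have e2 : Bg T a a a = 0 := by rw [← hev, ha]
    rw [hev, h1, hC, hC, hC, hC, e1, e2]
    simp only [map_mul, map_zero]
    rw [show Polynomial.C (3 : M) = 3 from rfl]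
    ring
  have hB : 3 * Bg T x a a ≠ 0 := by
    intro h0
    rw [h0, Polynomial.C_0, zero_mul, add_zero] at hline
    exact hodd2 (tan r 3 F hF (by norm_num) hsm M x a _ hxa hG.1 hG.2 hline)
  refine ⟨3 * Bg T x x a, 3 * Bg T x a a, hB, hline, ?_⟩
  by_cases hA : 3 * Bg T x x a = 0
  · left
    rw [hA]
    set B := 3 * Bg T x a a with hBd
    have h1 : (fun j => B * x j - 0 * a j) = fun j => B * x j := by
      funext j
      ring
    rw [h1]
    refine ⟨⟨by rw [aeval_smul_form hF, hG.1, mul_zero], fun e P hP h0 => ?_⟩, ?_⟩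
    · rw [aeval_smul_form hP] at h0
      exact hG.2 e P hP ((mul_eq_zero.1 h0).resolve_left (pow_ne_zero _ hB))
    · have h2 : (fun i => (B * x i) / B) = x := by
        funext i
        rw [mul_div_cancel_left₀ _ hB]
      have h3 := Pool.Agent.Y929.LI.ratioField_div (fun i => B * x i) hB
      rw [h2] at h3
      rw [← h3]
      exact hodd
  · by_cases hz : Gp F (fun j => 3 * Bg T x a a * x j - 3 * Bg T x x a * a j) ∧
        Odd (finrank (ratioField fun j => 3 * Bg T x a a * x j - 3 * Bg T x x a * a j) M)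
    · exact Or.inl hz
    · right
      refine p3 r F hF hsm M x a _ _ hxa hG hodd hpn hA hB hline fun h1 => ?_
      by_contra h2
      exact hz ⟨h1, Nat.not_even_iff_odd.1 fun h3 => h2 (even_iff_two_dvd.1 h3)⟩

/-- the points of a linear subspace over an extension field -/
theorem van_span {N P : ℕ} {F : MvPolynomial (Fin N) ℂ} (A : Fin N → Fin P → ℂ)
    (hA : ∀ a : Fin P → ℂ, eval (fun i => ∑ l, a l * A i l) F = 0)
    {R : Type} [CommRing R] [Algebra ℂ R] (w : Fin P → R) :
    aeval (fun i => ∑ l, w l * algebraMap ℂ R (A i l)) F = 0 := by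
  have h1 : aeval (fun i => ∑ l, (X l : MvPolynomial (Fin P) ℂ) * C (A i l)) F = 0 := by
    apply MvPolynomial.funext
    intro a
    rw [map_zero, ← hA a]
    have h2 := comp_aeval_apply (f := fun i => ∑ l, (X l : MvPolynomial (Fin P) ℂ) * C (A i l))
      (aeval a) F
    rw [aeval_eq_eval] at h2
    rw [h2, aeval_eq_eval]
    congr 2
    funext i
    simp only [map_sum, map_mul, eval_X, eval_C]
  have h2 := congrArg (aeval w) h1
  rw [map_zero, comp_aeval_apply] at h2
  rw [← h2]
  congr 2
  funext i
  simp only [map_sum, map_mul, aeval_X, aeval_C]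

theorem gp_zero {N : ℕ} {E : Type} [Field E] [Algebra ℂ E] {y : Fin N → E} :
    Gp (0 : MvPolynomial (Fin N) ℂ) y ↔
    ∀ (e : ℕ) (H : MvPolynomial (Fin N) ℂ), H.IsHomogeneous e → aeval y H = 0 → H = 0 := by
  unfold Gp
  simp only [map_zero, true_and, zero_dvd_iff]

/-- reflection in a point of a linear subspace: either the reflected point is again a generic
point of odd degree, or the projection from the linear subspace has a rational section -/
theorem law {N P : ℕ} {F : MvPolynomial (Fin N) ℂ}
    (hF : F.IsHomogeneous 3) (hsm : Sm F) (hF0 : F ≠ 0) (A : Fin N → Fin P → ℂ)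
    (hA : ∀ a : Fin P → ℂ, eval (fun i => ∑ l, a l * A i l) F = 0)
    {M : Type} [Field M] [Algebra ℂ M] (x : Fin N → M) (hG : Gp F x)
    (hodd : Odd (finrank (ratioField x) M)) (w : Fin P → M)
    (hw : (fun i => ∑ l, w l * algebraMap ℂ M (A i l)) ≠ 0) :
    (LinearIndependent M ![x, fun i => ∑ l, w l * algebraMap ℂ M (A i l)] ∧ ∃ S R : M, R ≠ 0 ∧
      aeval (fun j => Polynomial.C (x j) + Polynomial.X *
        Polynomial.C (∑ l, w l * algebraMap ℂ M (A j l))) F =
        Polynomial.C S * Polynomial.X + Polynomial.C R * Polynomial.X ^ 2 ∧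
      Gp F (fun j => R * x j - S * ∑ l, w l * algebraMap ℂ M (A j l)) ∧
      Odd (finrank (ratioField fun j => R * x j - S * ∑ l, w l * algebraMap ℂ M (A j l)) M)) ∨
    ∃ (k m : ℕ) (σ : Fin (k + 1 + (m + 1)) ≃ Fin N) (U : Fin (k + 1) → Fin (m + 1) → ℂ),
      LinearIndependent ℂ (fun i : Fin (k + 1) => A (σ (Fin.castAdd (m + 1) i))) ∧
      VanW (shear U (rename σ.symm F)) ∧
      (∀ j l, A (σ (Fin.natAdd (k + 1) j)) l =
        ∑ i, U i j * A (σ (Fin.castAdd (m + 1) i)) l) ∧
      Iso (shear U (rename σ.symm F)) := by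
  classical
  set v : Fin N → M := fun i => ∑ l, w l * algebraMap ℂ M (A i l) with hv
  have hA0 : A ≠ 0 := by
    intro h0
    apply hw
    funext i
    rw [hv]
    simp [h0]
  obtain ⟨i0, -⟩ := Function.ne_iff.1 hw
  obtain ⟨r, rfl⟩ : ∃ r, N = r + 1 := Nat.exists_eq_succ_of_ne_zero (by
    rintro rfl
    exact i0.elim0)
  obtain ⟨k, m, σ, U, hli, hW, hU, htp⟩ := Pool.Agent.Helper2K9.Cub.adapt1' hF0 A hA0 hA
  have hF1h : (rename σ.symm F).IsHomogeneous 3 := hF.rename_isHomogeneous
  have hF2h := shear_hom hF1h U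
  have hvF : aeval v F = 0 := van_span A hA w
  have hvt : ∀ j, v (σ (Fin.natAdd (k + 1) j)) =
      ∑ i, algebraMap ℂ M (U i j) * v (σ (Fin.castAdd (m + 1) i)) := by
    intro j
    have h1 := htp M w j
    unfold tp at h1
    rw [Fin.append_right, sub_eq_zero] at h1
    exact h1
  have htr : ∀ {y : Fin (r + 1) → M}, Gp F y →
      Gp (shear U (rename σ.symm F)) (tp U fun i => y (σ i)) := by
    intro y hy
    have h1 := gp_rename σ.symm hy
    rw [Equiv.symm_symm] at h1
    exact gp_tp U h1
  have hvn : ¬ Gp F v := by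
    intro h
    exact coord_ne_zero hF2h (by norm_num) _ (htr h).2 (Fin.natAdd (k + 1) 0) (htp M w 0)
  have hxv : LinearIndependent M ![x, v] := by
    rw [LinearIndependent.pair_iff]
    intro s q hsq
    have h1 : s * (tp U (fun i => x (σ i))) (Fin.natAdd (k + 1) 0) = 0 := by
      unfold tp
      rw [Fin.append_right]
      have e1 : ∀ i, s * x i = - (q * v i) := by
        intro i
        have := congrFun hsq i
        simp only [Pi.add_apply, Pi.smul_apply, smul_eq_mul, Pi.zero_apply] at this
        linear_combination this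
      rw [mul_sub, Finset.mul_sum]
      have e2 : ∀ i, s * (algebraMap ℂ M (U i 0) * x (σ (Fin.castAdd (m + 1) i))) =
          - (q * (algebraMap ℂ M (U i 0) * v (σ (Fin.castAdd (m + 1) i)))) := by
        intro i
        linear_combination algebraMap ℂ M (U i 0) * e1 (σ (Fin.castAdd (m + 1) i))
      rw [Finset.sum_congr rfl fun i _ => e2 i, e1, hvt, Finset.mul_sum, Finset.sum_neg_distrib]
      ring
    have hs := (mul_eq_zero.1 h1).resolve_right
      (coord_ne_zero hF2h (by norm_num) _ (htr hG).2 (Fin.natAdd (k + 1) 0))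
    refine ⟨hs, ?_⟩
    rw [hs, zero_smul, zero_add] at hsq
    exact (smul_eq_zero.1 hsq).resolve_right hw
  obtain ⟨S, R, hR, hline, h⟩ := law0 hF hsm x v hxv hG hodd hvF hvn
  rcases h with h | ⟨hygen, hyodd⟩
  · exact Or.inl ⟨hxv, S, R, hR, hline, h.1, h.2⟩
  right
  refine ⟨k, m, σ, U, hli, hW, hU, ?_⟩
  set E := FractionRing (Polynomial M) with hE
  set ι : Polynomial M →ₐ[ℂ] E := IsScalarTower.toAlgHom ℂ (Polynomial M) E with hι
  set y : Fin (r + 1) → E := fun j => algebraMap (Polynomial M) E
    (Polynomial.C (x j) + Polynomial.X * Polynomial.C (v j)) with hy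
  set y0 : Fin (r + 1) → E := fun j => algebraMap (Polynomial M) E (Polynomial.C (x j)) with hy0
  have hygen0 : Gp (0 : MvPolynomial (Fin (r + 1)) ℂ) y := gp_zero.2 hygen
  have hyg1 : Gp (0 : MvPolynomial (Fin (k + 1 + (m + 1))) ℂ) (fun i => y (σ i)) := by
    have h1 := gp_rename σ.symm hygen0
    rw [Equiv.symm_symm, map_zero] at h1
    exact h1
  have hyg2 : Gp (0 : MvPolynomial (Fin (k + 1 + (m + 1))) ℂ) (tp U fun i => y (σ i)) := by
    have h1 := gp_tp U hyg1
    have h2 : shear U (0 : MvPolynomial (Fin (k + 1 + (m + 1))) ℂ) = 0 := by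
      unfold shear
      rw [map_zero]
    rwa [h2] at h1
  have hne : ∀ {n : ℕ} {z : Fin n → E}, Gp (0 : MvPolynomial (Fin n) ℂ) z → ∀ i, z i ≠ 0 := by
    intro n z hz i h0
    exact X_ne_zero i (gp_zero.1 hz 1 (X i) (isHomogeneous_X _ _) (by rw [aeval_X, h0]))
  have hr1 : ratioField (fun i => y (σ i)) = ratioField y := by
    have h1 := ratioField_perm σ.symm y
    simpa only [Equiv.symm_symm] using h1
  have hr2 : ratioField (tp U fun i => y (σ i)) = ratioField fun i => y (σ i) :=
    ratioField_tp U _ ⟨_, hne hyg1 (Fin.castAdd (m + 1) 0)⟩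
      ⟨_, hne hyg2 (Fin.castAdd (m + 1) 0)⟩
  refine iso_of_odd spr desc hF2h hW (tp U fun i => y0 (σ i)) (tp U fun i => y (σ i)) ?_
    (gp_zero.1 hyg2) ?_ (by rw [hr2, hr1]; exact hyodd)
  · rw [aeval_tp, aeval_rename]
    have h1 : (fun i => y0 (σ i)) ∘ σ.symm = y0 := by
      funext i
      simp only [Function.comp_apply, Equiv.apply_symm_apply]
    rw [h1]
    have h2 := comp_aeval_apply (f := x) ((IsScalarTower.toAlgHom ℂ (Polynomial M)
      (FractionRing (Polynomial M))).comp (Polynomial.CAlgHom : M →ₐ[ℂ] Polynomial M)) F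
    rw [hG.1, map_zero] at h2
    exact h2.symm
  · intro j
    unfold tp
    rw [Fin.append_right, Fin.append_right]
    beta_reduce
    have h1 : ∀ i, y i = y0 i + algebraMap (Polynomial M) E Polynomial.X *
        algebraMap (Polynomial M) E (Polynomial.C (v i)) := by
      intro i
      rw [hy, hy0]
      simp only [map_add, map_mul]
    have h2 : ∀ c : ℂ, algebraMap ℂ E c = algebraMap (Polynomial M) E
        (Polynomial.C (algebraMap ℂ M c)) := by
      intro c
      rw [IsScalarTower.algebraMap_apply ℂ (Polynomial M) E]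
      rfl
    have h3 : algebraMap (Polynomial M) E (Polynomial.C (v (σ (Fin.natAdd (k + 1) j)))) =
        ∑ i, algebraMap ℂ E (U i j) *
          algebraMap (Polynomial M) E (Polynomial.C (v (σ (Fin.castAdd (m + 1) i)))) := by
      rw [hvt]
      simp only [map_sum, map_mul, h2]
    rw [h1, h3]
    simp only [h1, mul_add, Finset.sum_add_distrib, Finset.mul_sum]
    have h4 : ∀ i, algebraMap ℂ E (U i j) * (algebraMap (Polynomial M) E Polynomial.X *
        algebraMap (Polynomial M) E (Polynomial.C (v (σ (Fin.castAdd (m + 1) i))))) =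
        algebraMap (Polynomial M) E Polynomial.X * (algebraMap ℂ E (U i j) *
        algebraMap (Polynomial M) E (Polynomial.C (v (σ (Fin.castAdd (m + 1) i))))) := by
      intro i
      ring
    simp only [h4]
    ring

/-- a conic through a generic point of odd degree which meets a linear subspace -/
theorem conic {N P : ℕ} {F : MvPolynomial (Fin N) ℂ}
    (hF : F.IsHomogeneous 3) (hsm : Sm F) (hF0 : F ≠ 0) (A : Fin N → Fin P → ℂ)
    (hA : ∀ a : Fin P → ℂ, eval (fun i => ∑ l, a l * A i l) F = 0)
    {M : Type} [Field M] [Algebra ℂ M] (x β : Fin N → M) (hG : Gp F x)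
    (hodd : Odd (finrank (ratioField x) M)) (w : Fin P → M)
    (hw : (fun i => ∑ l, w l * algebraMap ℂ M (A i l)) ≠ 0)
    (h0 : aeval (fun i => Polynomial.C (x i) + Polynomial.X * Polynomial.C (β i) +
      Polynomial.X ^ 2 * Polynomial.C (∑ l, w l * algebraMap ℂ M (A i l))) F = 0) :
    ∃ (k m : ℕ) (σ : Fin (k + 1 + (m + 1)) ≃ Fin N) (U : Fin (k + 1) → Fin (m + 1) → ℂ),
      LinearIndependent ℂ (fun i : Fin (k + 1) => A (σ (Fin.castAdd (m + 1) i))) ∧
      VanW (shear U (rename σ.symm F)) ∧
      (∀ j l, A (σ (Fin.natAdd (k + 1) j)) l =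
        ∑ i, U i j * A (σ (Fin.castAdd (m + 1) i)) l) ∧
      Iso (shear U (rename σ.symm F)) := by
  classical
  refine (law hF hsm hF0 A hA x hG hodd w hw).resolve_left ?_
  set v : Fin N → M := fun i => ∑ l, w l * algebraMap ℂ M (A i l) with hv
  rintro ⟨hxv, S, R, hR, hline, hzG, hzodd⟩
  obtain ⟨i0, -⟩ := Function.ne_iff.1 hw
  obtain ⟨r, rfl⟩ : ∃ r, N = r + 1 := Nat.exists_eq_succ_of_ne_zero (by
    rintro rfl
    exact i0.elim0)
  obtain ⟨l1, l2, l3, hsh⟩ := shape_pt hF v β x h0
  -- the line through `x` and `v`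
  have h1 := hsh Polynomial.X 0 1
  have h2 : (fun i => Polynomial.X * Polynomial.C (v i) + 0 * Polynomial.C (β i) +
      1 * Polynomial.C (x i)) = fun i => Polynomial.C (x i) + Polynomial.X * Polynomial.C (v i) := by
    funext i
    ring
  rw [h2, hline] at h1
  have hS : S = -l3 := by
    have h3 := congrArg (fun q => q.coeff 1) h1
    have h4 : (0 ^ 2 - Polynomial.X * 1) * (Polynomial.C l1 * Polynomial.X + Polynomial.C l2 * 0 +
        Polynomial.C l3 * 1) = Polynomial.C (-l1) * Polynomial.X ^ 2 +
        Polynomial.C (-l3) * Polynomial.X := by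
      rw [map_neg, map_neg]
      ring
    simp only [h4] at h3
    simpa [Polynomial.coeff_X, Polynomial.coeff_X_pow] using h3
  have hRl : R = -l1 := by
    have h3 := congrArg (fun q => q.coeff 2) h1
    have h4 : (0 ^ 2 - Polynomial.X * 1) * (Polynomial.C l1 * Polynomial.X + Polynomial.C l2 * 0 +
        Polynomial.C l3 * 1) = Polynomial.C (-l1) * Polynomial.X ^ 2 +
        Polynomial.C (-l3) * Polynomial.X := by
      rw [map_neg, map_neg]
      ring
    simp only [h4] at h3
    simpa [Polynomial.coeff_X, Polynomial.coeff_X_pow] using h3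
  have hl1 : l1 ≠ 0 := fun h => hR (by rw [hRl, h, neg_zero])
  set z : Fin (r + 1) → M := fun j => R * x j - S * v j with hz
  set u : Fin (r + 1) → M := fun j => l2 * v j - l1 * β j with hu
  have hzd : ∀ j, z j = l3 * v j - l1 * x j := by
    intro j
    rw [hz, hS, hRl]
    ring
  -- the residual line
  have hzu : aeval (fun j => Polynomial.C (z j) + Polynomial.X * Polynomial.C (u j)) F = 0 := by
    have h3 := hsh (Polynomial.C l3 + Polynomial.C l2 * Polynomial.X)
      (-(Polynomial.C l1 * Polynomial.X)) (-Polynomial.C l1)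
    have h4 : (fun i => (Polynomial.C l3 + Polynomial.C l2 * Polynomial.X) * Polynomial.C (v i) +
        -(Polynomial.C l1 * Polynomial.X) * Polynomial.C (β i) +
        -Polynomial.C l1 * Polynomial.C (x i)) =
        fun j => Polynomial.C (z j) + Polynomial.X * Polynomial.C (u j) := by
      funext i
      rw [hzd, hu]
      simp only [map_sub, map_mul]
      ring
    rw [h4] at h3
    rw [h3]
    ring
  have hz0 : z ≠ 0 := by
    intro h3
    exact coord_ne_zero hF (by norm_num) z hzG.2 i0 (congrFun h3 i0)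
  by_cases hind : LinearIndependent M ![z, u]
  · have h3 := Pool.Agent.Y201.LI.contact (r := r) hF (by norm_num) hsm z hzG.1 hzG.2 u hind 0 (by
      rw [Polynomial.C_0, zero_mul]
      exact hzu)
    exact (Nat.not_even_iff_odd.2 hzodd) (even_iff_two_dvd.2 h3)
  · rw [LinearIndependent.pair_iff' hz0] at hind
    push Not at hind
    obtain ⟨κ, hκ⟩ := hind
    -- the conic lies in the line through `x` and `v`
    have hβ : ∀ j, β j = κ * x j + (l2 - κ * l3) / l1 * v j := by
      intro j
      have h3 := congrFun hκ j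
      rw [Pi.smul_apply, smul_eq_mul, hzd, hu] at h3
      field_simp
      linear_combination h3
    set p : M := (l2 - κ * l3) / l1 with hp
    have h3 := hsh (Polynomial.X ^ 2 + Polynomial.C p * Polynomial.X) 0
      (1 + Polynomial.C κ * Polynomial.X)
    have h4 : (fun i => (Polynomial.X ^ 2 + Polynomial.C p * Polynomial.X) * Polynomial.C (v i) +
        0 * Polynomial.C (β i) + (1 + Polynomial.C κ * Polynomial.X) * Polynomial.C (x i)) =
        fun i => Polynomial.C (x i) + Polynomial.X * Polynomial.C (β i) +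
          Polynomial.X ^ 2 * Polynomial.C (v i) := by
      funext i
      rw [hβ]
      simp only [map_add, map_mul]
      ring
    rw [h4, h0] at h3
    have h5 : (Polynomial.X ^ 2 + Polynomial.C p * Polynomial.X : Polynomial M) ≠ 0 := by
      intro h6
      have h7 := congrArg (fun q => q.coeff 2) h6
      simp at h7
    have h6 : (1 + Polynomial.C κ * Polynomial.X : Polynomial M) ≠ 0 := by
      intro h6
      have h7 := congrArg (fun q => q.coeff 0) h6
      simp at h7
    have h7 : Polynomial.C l1 * (Polynomial.X ^ 2 + Polynomial.C p * Polynomial.X) +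
        Polynomial.C l3 * (1 + Polynomial.C κ * Polynomial.X) = (0 : Polynomial M) := by
      have h8 : (Polynomial.X ^ 2 + Polynomial.C p * Polynomial.X) *
          ((1 + Polynomial.C κ * Polynomial.X) * (Polynomial.C l1 *
          (Polynomial.X ^ 2 + Polynomial.C p * Polynomial.X) +
          Polynomial.C l3 * (1 + Polynomial.C κ * Polynomial.X))) = (0 : Polynomial M) := by
        linear_combination h3
      exact (mul_eq_zero.1 ((mul_eq_zero.1 h8).resolve_left h5)).resolve_left h6
    apply hl1
    have h8 := congrArg (fun q => q.coeff 2) h7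
    have h9 : Polynomial.C l1 * (Polynomial.X ^ 2 + Polynomial.C p * Polynomial.X) +
        Polynomial.C l3 * (1 + Polynomial.C κ * Polynomial.X) =
        Polynomial.C l1 * Polynomial.X ^ 2 + Polynomial.C (l1 * p + l3 * κ) * Polynomial.X +
          Polynomial.C l3 := by
      simp only [map_add, map_mul]
      ring
    simp only [h9] at h8
    simpa [Polynomial.coeff_X, Polynomial.coeff_C] using h8

end

end Pool.Agent.Helper52K9.CUB
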