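import Mathlib
import Pool.Agent.Helper52K9.CUB.Pt
import Pool.Agent.Helper2K9.Cub.Maps

/-! # Smooth cubics: cubic forms in any number of variables -/

set_option autoImplicit false

namespace Pool.Agent.Helper52K9.CUB

open MvPolynomial Pool.Agent.TH314.PD IntermediateField Module Pool.Agent.Y201.C3
open Pool.Agent.R845.E3 Pool.Agent.R845.T2

noncomputable section

/-- the transcendence degree of the field of definition of a generic point -/
theorem le_trdeg {n : ℕ} {F : MvPolynomial (Fin (n + 2)) ℂ} (hF : F.IsHomogeneous 3)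
    (hF0 : F ≠ 0) {M : Type} [Field M] [Algebra ℂ M] (x : Fin (n + 2) → M) (hG : Gp F x) :
    (n : Cardinal) ≤ Algebra.trdeg ℂ M := by
  classical
  obtain ⟨c, hc⟩ : ∃ c : Fin (n + 2) → ℂ, eval c F ≠ 0 := by
    by_contra h
    push Not at h
    exact hF0 (MvPolynomial.funext fun c => by rw [h c, map_zero])
  obtain ⟨T, hT, hFT⟩ := exists_tri F hF
  have hev : ∀ {R : Type} [CommRing R] [Algebra ℂ R] (v : Fin (n + 2) → R),
      aeval v F = Bg T v v v := by
    intro R _ _ v
    conv_lhs => rw [hFT]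
    exact aeval_frmG T v
  set c' : Fin (n + 2) → M := fun i => algebraMap ℂ M (c i) with hc'
  have hc'F : Bg T c' c' c' ≠ 0 := by
    have h1 := map_Bg (Algebra.ofId ℂ M) T c c c
    have h2 : Bg T c' c' c' = algebraMap ℂ M (Bg T c c c) := h1.symm
    rw [h2]
    have h3 : Bg T c c c ≠ 0 := by
      rw [← hev, aeval_eq_eval]
      exact hc
    exact fun h => h3 ((algebraMap ℂ M).injective (h.trans (map_zero _).symm))
  have hC : ∀ u v w : Fin (n + 2) → M, Bg T (fun i => Polynomial.C (u i))
      (fun i => Polynomial.C (v i)) (fun i => Polynomial.C (w i)) =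
      Polynomial.C (Bg T u v w) := fun u v w =>
    (map_Bg (Polynomial.CAlgHom : M →ₐ[ℂ] Polynomial M) T u v w).symm
  set Y : Fin (n + 2) → Polynomial M := fun j =>
    Polynomial.C (x j) + Polynomial.X * Polynomial.C (c' j) with hY
  have hFY : aeval Y F ≠ 0 := by
    intro h0
    have h1 := Bg_span3 hT (fun i => Polynomial.C (x i)) (fun i => Polynomial.C (c' i))
      (fun i => Polynomial.C (c' i)) (1 : Polynomial M) Polynomial.X 0
    rw [show (fun i => 1 * Polynomial.C (x i) + Polynomial.X * Polynomial.C (c' i) +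
      0 * Polynomial.C (c' i)) = Y from funext fun i => by rw [hY]; ring, ← hev, h0] at h1
    simp only [hC] at h1
    have h2 := congrArg (fun q => q.coeff 3) h1
    have h3 : (1 ^ 3 * Polynomial.C (Bg T x x x) +
        3 * 1 ^ 2 * Polynomial.X * Polynomial.C (Bg T x x c') +
        3 * 1 ^ 2 * 0 * Polynomial.C (Bg T x x c') +
        3 * 1 * Polynomial.X ^ 2 * Polynomial.C (Bg T x c' c') +
        6 * 1 * Polynomial.X * 0 * Polynomial.C (Bg T x c' c') +
        3 * 1 * 0 ^ 2 * Polynomial.C (Bg T x c' c') +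
        Polynomial.X ^ 3 * Polynomial.C (Bg T c' c' c') +
        3 * Polynomial.X ^ 2 * 0 * Polynomial.C (Bg T c' c' c') +
        3 * Polynomial.X * 0 ^ 2 * Polynomial.C (Bg T c' c' c') +
        0 ^ 3 * Polynomial.C (Bg T c' c' c') : Polynomial M) =
        Polynomial.C (Bg T x x x) + Polynomial.C (3 * Bg T x x c') * Polynomial.X +
        Polynomial.C (3 * Bg T x c' c') * Polynomial.X ^ 2 +
        Polynomial.C (Bg T c' c' c') * Polynomial.X ^ 3 := by
      simp only [map_mul]
      rw [show Polynomial.C (3 : M) = 3 from rfl]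
      ring
    rw [h3] at h2
    apply hc'F
    simp only [Polynomial.coeff_add, Polynomial.coeff_C_mul, Polynomial.coeff_X,
      Polynomial.coeff_X_pow, Polynomial.coeff_C, Polynomial.coeff_zero] at h2
    norm_num at h2
    exact h2.symm
  set E := FractionRing (Polynomial M) with hE
  set ι : Polynomial M →ₐ[ℂ] E := IsScalarTower.toAlgHom ℂ (Polynomial M) E with hι
  have hinj : Function.Injective ι := IsFractionRing.injective (Polynomial M) E
  have hgen : ∀ (e : ℕ) (H : MvPolynomial (Fin (n + 1 + 1)) ℂ), H.IsHomogeneous e →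
      aeval (fun j => ι (Y j)) H = 0 → H = 0 := by
    intro e H hH h0
    refine generic_line hF (by norm_num) x hG.2 Y (fun i => ?_) hFY e H hH (hinj ?_)
    · rw [hY]
      simp
    · rw [map_zero, ← h0, comp_aeval_apply]
  have hind := (Pool.Agent.R845.T2.Fd.indep_of_generic _ hgen).2
  have h1 := hind.cardinalMk_le_trdeg
  have h2 : Algebra.trdeg ℂ M + Algebra.trdeg M E = Algebra.trdeg ℂ E :=
    trdeg_add_eq ℂ M
  have h3 : Algebra.trdeg M E ≤ 1 := by
    have hadj : IntermediateField.adjoin M {ι Polynomial.X} = (⊤ : IntermediateField M E) := by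
      rw [eq_top_iff]
      intro f _
      obtain ⟨a, b, hb, rfl⟩ := IsFractionRing.div_surjective (A := Polynomial M) f
      have h1 : ∀ b : Polynomial M, algebraMap (Polynomial M) E b ∈
          IntermediateField.adjoin M {ι Polynomial.X} := by
        intro b
        have h2 : algebraMap (Polynomial M) E b = Polynomial.aeval (ι Polynomial.X) b := by
          have h3 : (Polynomial.aeval (ι Polynomial.X) : Polynomial M →ₐ[M] E) =
              IsScalarTower.toAlgHom M (Polynomial M) E := by
            apply Polynomial.algHom_ext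
            rw [Polynomial.aeval_X]
            rfl
          rw [h3]
          rfl
        rw [h2]
        have h4 : ι Polynomial.X ∈ IntermediateField.adjoin M {ι Polynomial.X} :=
          IntermediateField.mem_adjoin_simple_self M _
        have h5 : Algebra.adjoin M {ι Polynomial.X} ≤
            (IntermediateField.adjoin M {ι Polynomial.X}).toSubalgebra :=
          Algebra.adjoin_le (Set.singleton_subset_iff.2 h4)
        exact h5 (Polynomial.aeval_mem_adjoin_singleton M _)
      exact div_mem (h1 a) (h1 b)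
    have h4 : Algebra.IsAlgebraic (IntermediateField.adjoin M {ι Polynomial.X}) E := by
      rw [hadj]
      exact ⟨fun z => isAlgebraic_algebraMap (⟨z, IntermediateField.mem_top⟩ :
        (⊤ : IntermediateField M E))⟩
    have h5 := IntermediateField.isAlgebraic_adjoin_iff_top.1 h4
    have h6 := Algebra.IsAlgebraic.trdeg_le_cardinalMk M ({ι Polynomial.X} : Set E)
    simpa using h6
  by_contra hcon
  push Not at hcon
  obtain ⟨k, hk⟩ := Cardinal.lt_aleph0.1 (hcon.trans Cardinal.natCast_lt_aleph0)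
  rw [hk] at h2 hcon
  have hkn : k < n := by exact_mod_cast hcon
  have h4 : Algebra.trdeg ℂ E ≤ n := by
    rw [← h2]
    calc (k : Cardinal) + Algebra.trdeg M E ≤ k + 1 := by gcongr
      _ ≤ n := by exact_mod_cast hkn
  have h5 := h1.trans h4
  rw [Cardinal.mk_fin] at h5
  have h6 : n + 1 ≤ n := by exact_mod_cast h5
  omega

/-- forms in many variables which satisfy a cubic equation have a common zero -/
theorem exists_base_pt {n P : ℕ} (hP : n + 2 ≤ P) {F : MvPolynomial (Fin (n + 2)) ℂ}
    (hF : F.IsHomogeneous 3) (hF0 : F ≠ 0) (H : Fin (n + 2) → MvPolynomial (Fin P) ℂ)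
    (hH : ∀ i, (H i).IsHomogeneous 3) (hHF : aeval H F = 0) :
    ∃ b : Fin P → ℂ, b ≠ 0 ∧ ∀ i, eval b (H i) = 0 := by
  classical
  obtain ⟨c, hc⟩ : ∃ c : Fin (n + 2) → ℂ, eval c F ≠ 0 := by
    by_contra h
    push Not at h
    exact hF0 (MvPolynomial.funext fun c => by rw [h c, map_zero])
  have hz : ∀ {k : ℕ} {G : MvPolynomial (Fin k) ℂ}, G.IsHomogeneous 3 →
      eval (0 : Fin k → ℂ) G = 0 := by
    intro k G hG
    have h1 := aeval_smul_form hG (0 : ℂ) (0 : Fin k → ℂ)
    rw [aeval_eq_eval, aeval_eq_eval] at h1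
    have h2 : (fun i => (0 : ℂ) * (0 : Fin k → ℂ) i) = 0 := by
      funext i
      simp
    rw [h2] at h1
    rw [h1]
    ring
  obtain ⟨i0, hi0⟩ : ∃ i, c i ≠ 0 := by
    by_contra h
    push Not at h
    apply hc
    rw [show c = 0 from funext h]
    exact hz hF
  obtain ⟨b, hb, hbp⟩ := Pool.Agent.R845.exists_other_zero' (n := P) (ι := Fin (n + 1))
    (by rw [Fintype.card_fin]; omega)
    (fun j => C (c i0) * H (i0.succAbove j) - C (c (i0.succAbove j)) * H i0)
    (0 : Fin P → ℂ) (by
      intro j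
      rw [map_sub, map_mul, map_mul, hz (hH _), hz (hH _), mul_zero, mul_zero, sub_zero])
  refine ⟨b, hb, ?_⟩
  set lam : ℂ := eval b (H i0) / c i0 with hlam
  have hl : ∀ i, eval b (H i) = lam * c i := by
    intro i
    rcases Fin.eq_self_or_eq_succAbove i0 i with rfl | ⟨j, rfl⟩
    · rw [hlam, div_mul_cancel₀ _ hi0]
    · have h1 := hbp j
      rw [map_sub, map_mul, map_mul, eval_C, eval_C, sub_eq_zero] at h1
      rw [hlam]
      field_simp
      linear_combination h1
  have h1 : eval b (aeval H F) = lam ^ 3 * eval c F := by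
    have h2 := comp_aeval_apply (f := H) (aeval b) F
    rw [aeval_eq_eval] at h2
    rw [h2, show (fun i => eval b (H i)) = fun i => lam * c i from funext hl,
      aeval_smul_form hF, aeval_eq_eval]
  rw [hHF, map_zero] at h1
  have h2 : lam = 0 := by
    have h3 := (mul_eq_zero.1 h1.symm).resolve_right hc
    exact pow_eq_zero_iff (by norm_num) |>.1 h3
  intro i
  rw [hl, h2, zero_mul]

/-- scaling of a generic point -/
theorem gp_smul {N : ℕ} {F : MvPolynomial (Fin N) ℂ} (hF : F.IsHomogeneous 3) {M : Type} [Field M]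
    [Algebra ℂ M] {x : Fin N → M} (hG : Gp F x) {c : M} (hc : c ≠ 0) :
    Gp F (fun i => c * x i) ∧ ratioField (fun i => c * x i) = ratioField x := by
  refine ⟨⟨by rw [aeval_smul_form hF, hG.1, mul_zero], fun e P hP h0 => ?_⟩, ?_⟩
  · rw [aeval_smul_form hP] at h0
    exact hG.2 e P hP ((mul_eq_zero.1 h0).resolve_left (pow_ne_zero _ hc))
  · have h2 : (fun i => (c * x i) / c) = x := by
      funext i
      rw [mul_div_cancel_left₀ _ hc]
    have h3 := Pool.Agent.Y929.LI.ratioField_div (fun i => c * x i) hc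
    rw [h2] at h3
    exact h3.symm

/-- the expansion of cubic forms along the lines through a base point -/
theorem expand {N P : ℕ} (H : Fin N → MvPolynomial (Fin P) ℂ) (hH : ∀ i, (H i).IsHomogeneous 3)
    (b : Fin P → ℂ) (hHb : ∀ i, eval b (H i) = 0) {M : Type} [Field M] [Algebra ℂ M]
    (τ : Fin P → M) : ∃ β : Fin N → M,
    ∀ (R : Type) [CommRing R] [Algebra ℂ R] (φ : M →ₐ[ℂ] R) (t : R) (i : Fin N),
      aeval (fun l => φ (τ l) + t * algebraMap ℂ R (b l)) (H i) =
        φ (aeval τ (H i)) + t * φ (β i) +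
          t ^ 2 * φ (∑ l, τ l * algebraMap ℂ M (eval b (pderiv l (H i)))) := by
  classical
  choose T hT hTH using fun i => exists_tri (H i) (hH i)
  obtain rfl : H = fun i => Bg (T i) X X X := funext hTH
  have hbbb : ∀ i, Bg (T i) b b b = 0 := by
    intro i
    have h1 := hHb i
    rw [← coe_aeval_eq_eval, RingHom.coe_coe, aeval_frmG] at h1
    exact h1
  refine ⟨fun i => 3 * Bg (T i) (fun l => algebraMap ℂ M (b l)) τ τ, ?_⟩
  intro R _ _ φ t i
  have hb : ∀ l, φ (algebraMap ℂ M (b l)) = algebraMap ℂ R (b l) := fun l => φ.commutes _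
  have h1 : (fun l => φ (τ l) + t * algebraMap ℂ R (b l)) =
      fun l => t * algebraMap ℂ R (b l) + φ (τ l) := by
    funext l
    ring
  have h2 : Bg (T i) (fun l => algebraMap ℂ R (b l)) (fun l => algebraMap ℂ R (b l))
      (fun l => algebraMap ℂ R (b l)) = 0 := by
    have h4 := map_Bg (Algebra.ofId ℂ R) (T i) b b b
    rw [hbbb i, map_zero] at h4
    exact h4.symm
  rw [h1, con_taylor (hT i), h2, con_A (hT i), aeval_frmG, map_mul, map_mul, map_ofNat,
    map_Bg, map_Bg, map_Bg]
  simp only [hb]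
  ring

/-- the linear space which is the image of the Jacobian matrix at a base point lies in `X` -/
theorem jac_inside {n P : ℕ} {F : MvPolynomial (Fin (n + 2)) ℂ} (hF : F.IsHomogeneous 3)
    (H : Fin (n + 2) → MvPolynomial (Fin P) ℂ) (hH : ∀ i, (H i).IsHomogeneous 3)
    (hHF : aeval H F = 0) (b : Fin P → ℂ) (hHb : ∀ i, eval b (H i) = 0) (a : Fin P → ℂ) :
    eval (fun i => ∑ l, a l * eval b (pderiv l (H i))) F = 0 := by
  classical
  choose T hT hTH using fun i => exists_tri (H i) (hH i)
  obtain rfl : H = fun i => Bg (T i) X X X := funext hTH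
  have hbbb : ∀ i, Bg (T i) b b b = 0 := by
    intro i
    have h1 := hHb i
    rw [← coe_aeval_eq_eval, RingHom.coe_coe, aeval_frmG] at h1
    exact h1
  rw [← con_one F hF T hT hHF b hbbb a]
  congr 2
  funext i
  exact con_A (hT i) b a

/-- one step: either the lines through the base point give conics which meet a linear subspace, or
the number of variables can be decreased -/
theorem step {n Q : ℕ} {F : MvPolynomial (Fin (n + 2)) ℂ} (hF : F.IsHomogeneous 3) (hsm : Sm F)
    (H : Fin (n + 2) → MvPolynomial (Fin (Q + 1)) ℂ) (hH : ∀ i, (H i).IsHomogeneous 3)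
    (hHF : aeval H F = 0) (b : Fin (Q + 1) → ℂ) (hb0 : b ≠ 0) (hHb : ∀ i, eval b (H i) = 0)
    {M : Type} [Field M] [Algebra ℂ M] (τ : Fin (Q + 1) → M)
    (hG : Gp F (fun i => aeval τ (H i)))
    (hodd : Odd (finrank (ratioField fun i => aeval τ (H i)) M)) :
    (∃ (k m : ℕ) (σ : Fin (k + 1 + (m + 1)) ≃ Fin (n + 2)) (U : Fin (k + 1) → Fin (m + 1) → ℂ),
      VanW (shear U (rename σ.symm F)) ∧ Iso (shear U (rename σ.symm F))) ∨
    ∃ (H' : Fin (n + 2) → MvPolynomial (Fin Q) ℂ) (τ' : Fin Q → M) (c : M), c ≠ 0 ∧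
      (∀ i, (H' i).IsHomogeneous 3) ∧ aeval H' F = 0 ∧
      ∀ i, aeval τ' (H' i) = c * aeval τ (H i) := by
  classical
  have hF0 : F ≠ 0 := ne_zero_of_smooth (m := n + 1) hsm
  obtain ⟨β, hβ⟩ := expand H hH b hHb τ
  set x : Fin (n + 2) → M := fun i => aeval τ (H i) with hx
  have h0 : aeval (fun i => Polynomial.C (x i) + Polynomial.X * Polynomial.C (β i) +
      Polynomial.X ^ 2 * Polynomial.C (∑ l, τ l * algebraMap ℂ M (eval b (pderiv l (H i))))) F =
      0 := by
    have h1 := comp_aeval_apply (f := H) (aeval (fun l =>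
      (Polynomial.CAlgHom : M →ₐ[ℂ] Polynomial M) (τ l) +
        Polynomial.X * algebraMap ℂ (Polynomial M) (b l))) F
    rw [hHF, map_zero] at h1
    rw [h1]
    congr 2
    funext i
    exact (hβ (Polynomial M) Polynomial.CAlgHom Polynomial.X i).symm
  by_cases hα : (fun i => ∑ l, τ l * algebraMap ℂ M (eval b (pderiv l (H i)))) = 0
  swap
  · left
    obtain ⟨k, m, σ, U, -, h1, -, h2⟩ := conic hF hsm hF0 (fun i l => eval b (pderiv l (H i)))
      (jac_inside hF H hH hHF b hHb) x β hG hodd τ hα h0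
    exact ⟨k, m, σ, U, h1, h2⟩
  right
  have hα' : ∀ i, ∑ l, τ l * algebraMap ℂ M (eval b (pderiv l (H i))) = 0 := congrFun hα
  have hx0 : ∀ i, x i ≠ 0 := coord_ne_zero hF (by norm_num) x hG.2
  have hxne : x ≠ 0 := fun h => hx0 0 (congrFun h 0)
  obtain ⟨κ, hκ⟩ : ∃ κ : M, ∀ i, β i = κ * x i := by
    by_contra hcon
    push Not at hcon
    have hind : LinearIndependent M ![x, β] := by
      rw [LinearIndependent.pair_iff' hxne]
      intro κ hκ
      obtain ⟨i, hi⟩ := hcon κ
      exact hi (congrFun hκ i).symm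
    have h3 := Pool.Agent.Y201.LI.contact (r := n + 1) hF (by norm_num) hsm x hG.1 hG.2 β hind 0
      (by
        rw [Polynomial.C_0, zero_mul, ← h0]
        congr 2
        funext i
        rw [hα', Polynomial.C_0, mul_zero, add_zero])
    exact (Nat.not_even_iff_odd.2 hodd) (even_iff_two_dvd.2 h3)
  have hline : ∀ (s : M) (i : Fin (n + 2)),
      aeval (fun l => τ l + s * algebraMap ℂ M (b l)) (H i) = (1 + κ * s) * x i := by
    intro s i
    have h1 := hβ M (AlgHom.id ℂ M) s i
    simp only [AlgHom.id_apply] at h1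
    rw [h1, hα', hκ]
    simp only [hx]
    ring
  -- a hyperplane
  obtain ⟨j, h, hlb, hlc⟩ : ∃ (j : Fin (Q + 1)) (h : Fin Q → ℂ),
      b j - ∑ i, h i * b (j.succAbove i) ≠ 0 ∧
      algebraMap ℂ M (b j - ∑ i, h i * b (j.succAbove i)) -
        κ * (τ j - ∑ i, algebraMap ℂ M (h i) * τ (j.succAbove i)) ≠ 0 := by
    obtain ⟨j, hj⟩ := Function.ne_iff.1 hb0
    rw [Pi.zero_apply] at hj
    by_cases h1 : algebraMap ℂ M (b j) - κ * τ j = 0
    swap
    · exact ⟨j, 0, by simpa using hj, by simpa using h1⟩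
    · have h2 : ∃ i, algebraMap ℂ M (b i) - κ * τ i ≠ 0 := by
        by_contra hcon
        push Not at hcon
        have h3 : (fun l => algebraMap ℂ M (b l)) = fun l => κ * τ l := by
          funext l
          exact sub_eq_zero.1 (hcon l)
        have h4 : κ ≠ 0 := by
          intro h5
          rw [h5, zero_mul, sub_zero] at h1
          exact hj ((algebraMap ℂ M).injective (h1.trans (map_zero _).symm))
        have h5 : aeval (fun l => algebraMap ℂ M (b l)) (H 0) = κ ^ 3 * x 0 := by
          rw [h3, aeval_smul_form (hH 0)]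
        have h6 : aeval (fun l => algebraMap ℂ M (b l)) (H 0) = 0 := by
          have h7 := aeval_algebraMap_apply M b (H 0)
          rw [aeval_eq_eval] at h7
          have h8 : (algebraMap ℂ M ∘ b) = fun l => algebraMap ℂ M (b l) := rfl
          rw [hHb 0, map_zero] at h7
          exact h7
        rw [h6] at h5
        exact hx0 0 ((mul_eq_zero.1 h5.symm).resolve_left (pow_ne_zero _ h4))
      obtain ⟨i0, hi0⟩ := h2
      obtain ⟨i1, rfl⟩ : ∃ i1, i0 = j.succAbove i1 := by
        rcases Fin.eq_self_or_eq_succAbove j i0 with h3 | h3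
        · exact absurd h1 (h3 ▸ hi0)
        · exact h3
      obtain ⟨ε, hε0, hε⟩ : ∃ ε : ℂ, ε ≠ 0 ∧ b j - ε * b (j.succAbove i1) ≠ 0 := by
        by_cases h3 : b j = b (j.succAbove i1)
        · refine ⟨2, two_ne_zero, ?_⟩
          rw [← h3]
          intro h4
          apply hj
          linear_combination -h4
        · exact ⟨1, one_ne_zero, by rw [one_mul]; exact sub_ne_zero.2 h3⟩
      refine ⟨j, Pi.single i1 ε, ?_, ?_⟩
      · rw [Finset.sum_eq_single i1 (fun i _ hi => by rw [Pi.single_eq_of_ne hi, zero_mul])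
          (fun h => absurd (Finset.mem_univ _) h), Pi.single_eq_same]
        exact hε
      · rw [Finset.sum_eq_single i1 (fun i _ hi => by rw [Pi.single_eq_of_ne hi, zero_mul])
          (fun h => absurd (Finset.mem_univ _) h), Pi.single_eq_same,
          Finset.sum_eq_single i1 (fun i _ hi => by
            rw [Pi.single_eq_of_ne hi, map_zero, zero_mul])
          (fun h => absurd (Finset.mem_univ _) h), Pi.single_eq_same, map_sub, map_mul]
        have h3 : algebraMap ℂ M (b j) - algebraMap ℂ M ε * algebraMap ℂ M (b (j.succAbove i1)) -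
            κ * (τ j - algebraMap ℂ M ε * τ (j.succAbove i1)) =
            - (algebraMap ℂ M ε * (algebraMap ℂ M (b (j.succAbove i1)) -
              κ * τ (j.succAbove i1))) := by
          linear_combination h1
        rw [h3]
        refine neg_ne_zero.2 (mul_ne_zero ?_ hi0)
        intro h4
        exact hε0 ((algebraMap ℂ M).injective (h4.trans (map_zero _).symm))
  set lb : ℂ := b j - ∑ i, h i * b (j.succAbove i) with hlbd
  set lt : M := τ j - ∑ i, algebraMap ℂ M (h i) * τ (j.succAbove i) with hltd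
  have hlb' : algebraMap ℂ M lb ≠ 0 := fun h4 =>
    hlb ((algebraMap ℂ M).injective (h4.trans (map_zero _).symm))
  set s : M := -lt / algebraMap ℂ M lb with hs
  set sub : Fin (Q + 1) → MvPolynomial (Fin Q) ℂ :=
    j.insertNth (∑ i, C (h i) * X i) X with hsub
  set τ' : Fin Q → M := fun i =>
    τ (j.succAbove i) + s * algebraMap ℂ M (b (j.succAbove i)) with hτ'
  have hsubτ : (fun l => aeval τ' (sub l)) = fun l => τ l + s * algebraMap ℂ M (b l) := by
    funext l
    rcases Fin.eq_self_or_eq_succAbove j l with rfl | ⟨i, rfl⟩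
    · rw [hsub, Fin.insertNth_apply_same, map_sum]
      have h1 : ∀ i, aeval τ' (C (h i) * X i) = algebraMap ℂ M (h i) * τ (l.succAbove i) +
          s * (algebraMap ℂ M (h i) * algebraMap ℂ M (b (l.succAbove i))) := by
        intro i
        rw [map_mul, aeval_C, aeval_X, hτ']
        ring
      rw [Finset.sum_congr rfl fun i _ => h1 i, Finset.sum_add_distrib, ← Finset.mul_sum]
      have h2 : ∑ i, algebraMap ℂ M (h i) * τ (l.succAbove i) = τ l - lt := by
        rw [hltd]
        ring
      have h3 : ∑ i, algebraMap ℂ M (h i) * algebraMap ℂ M (b (l.succAbove i)) =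
          algebraMap ℂ M (b l) - algebraMap ℂ M lb := by
        rw [hlbd, map_sub, map_sum]
        simp only [map_mul]
        ring
      rw [h2, h3, hs]
      field_simp
      ring
    · rw [hsub, Fin.insertNth_apply_succAbove, aeval_X]
  have hsubh : ∀ l, (sub l).IsHomogeneous 1 := by
    intro l
    rcases Fin.eq_self_or_eq_succAbove j l with rfl | ⟨i, rfl⟩
    · rw [hsub, Fin.insertNth_apply_same]
      refine IsHomogeneous.sum _ _ _ fun i _ => ?_
      have h1 := (isHomogeneous_C (Fin Q) (h i)).mul (isHomogeneous_X ℂ i)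
      rwa [zero_add] at h1
    · rw [hsub, Fin.insertNth_apply_succAbove]
      exact isHomogeneous_X _ _
  refine ⟨fun i => aeval sub (H i), τ', 1 + κ * s, ?_, ?_, ?_, ?_⟩
  · intro h1
    apply hlc
    have h2 : algebraMap ℂ M lb - κ * lt = algebraMap ℂ M lb * (1 + κ * s) := by
      rw [hs]
      field_simp
      ring
    rw [h2, h1, mul_zero]
  · intro i
    have h1 := (hH i).aeval sub hsubh
    exact h1
  · have h1 := comp_aeval_apply (f := H) (aeval sub) F
    rw [hHF, map_zero] at h1
    exact h1.symm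
  · intro i
    rw [comp_aeval_apply, hsubτ]
    exact hline s i

/-- cubic forms in `n + 1` variables -/
theorem base_case {n : ℕ} (hn : 3 ≤ n) {F : MvPolynomial (Fin (n + 2)) ℂ}
    (hF : F.IsHomogeneous 3) (hsm : Sm F)
    (H : Fin (n + 2) → MvPolynomial (Fin (n + 1)) ℂ) (hH : ∀ i, (H i).IsHomogeneous 3)
    (hHF : aeval H F = 0) {M : Type} [Field M] [Algebra ℂ M] (τ : Fin (n + 1) → M)
    (h0 : τ 0 ≠ 0) (hG : Gp F (fun i => aeval τ (H i)))
    (hodd : Odd (finrank (ratioField fun i => aeval τ (H i)) M)) :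
    ∃ (k m : ℕ) (σ : Fin (k + 1 + (m + 1)) ≃ Fin (n + 2)) (U : Fin (k + 1) → Fin (m + 1) → ℂ),
      VanW (shear U (rename σ.symm F)) ∧ Iso (shear U (rename σ.symm F)) := by
  classical
  have hF0 : F ≠ 0 := ne_zero_of_smooth (m := n + 1) hsm
  set x : Fin (n + 2) → M := fun i => aeval τ (H i) with hx
  set y : Fin n → M := fun i => τ i.succ / τ 0 with hy
  have hτy : ∀ i, τ i = τ 0 * (Fin.cons 1 y : Fin (n + 1) → M) i := by
    intro i
    refine Fin.cases ?_ (fun l => ?_) i
    · rw [Fin.cons_zero, mul_one]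
    · rw [Fin.cons_succ, hy]
      simp only
      field_simp
  have hxy : ∀ i, x i = τ 0 ^ 3 * aeval (Fin.cons 1 y : Fin (n + 1) → M) (H i) := by
    intro i
    rw [← aeval_smul_form (hH i), hx]
    simp only
    congr 2
    funext l
    exact hτy l
  have hx0 : ∀ i, x i ≠ 0 := coord_ne_zero hF (by norm_num) x hG.2
  -- algebraic independence
  have hfin : FiniteDimensional (ratioField x) M := FiniteDimensional.of_finrank_pos hodd.pos
  have hle : ratioField x ≤ IntermediateField.adjoin ℂ (Set.range y) := by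
    unfold ratioField
    rw [adjoin_le_iff]
    have hmem : ∀ i, aeval (Fin.cons 1 y : Fin (n + 1) → M) (H i) ∈
        IntermediateField.adjoin ℂ (Set.range y) := by
      intro i
      have h1 : aeval (Fin.cons 1 y : Fin (n + 1) → M) (H i) ∈
          Algebra.adjoin ℂ (Set.range (Fin.cons 1 y : Fin (n + 1) → M)) := by
        rw [Algebra.adjoin_range_eq_range_aeval]
        exact ⟨_, rfl⟩
      have h2 : Algebra.adjoin ℂ (Set.range (Fin.cons 1 y : Fin (n + 1) → M)) ≤
          (IntermediateField.adjoin ℂ (Set.range y)).toSubalgebra := by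
        rw [Algebra.adjoin_le_iff]
        rintro _ ⟨l, rfl⟩
        refine Fin.cases ?_ (fun l => ?_) l
        · rw [Fin.cons_zero]
          exact one_mem _
        · rw [Fin.cons_succ]
          exact IntermediateField.subset_adjoin _ _ ⟨l, rfl⟩
      exact h2 h1
    rintro _ ⟨i, j, rfl⟩
    rw [hxy, hxy, mul_div_mul_left _ _ (pow_ne_zero _ h0)]
    exact div_mem (hmem i) (hmem j)
  have halg : Algebra.IsAlgebraic (IntermediateField.adjoin ℂ (Set.range y)) M := by
    let _ : Algebra (ratioField x) (IntermediateField.adjoin ℂ (Set.range y)) :=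
      (IntermediateField.inclusion hle).toRingHom.toAlgebra
    have : IsScalarTower (ratioField x) (IntermediateField.adjoin ℂ (Set.range y)) M :=
      IsScalarTower.of_algebraMap_eq (fun _ => rfl)
    exact Algebra.IsAlgebraic.tower_top (K := ratioField x) _
  have halg2 := IntermediateField.isAlgebraic_adjoin_iff_top.1 halg
  have hbas := Algebra.IsAlgebraic.isTranscendenceBasis_of_le_trdeg_of_finite ℂ y (by
    rw [Cardinal.mk_fin]
    exact le_trdeg hF hF0 x hG)
  have hind : AlgebraicIndependent ℂ y := hbas.1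
  -- the embedding
  set φ : Rn n →ₐ[ℂ] M := (IntermediateField.adjoin ℂ (Set.range y)).val.comp
    hind.aevalEquivField.toAlgHom with hφ
  have hφP : ∀ P : MvPolynomial (Fin n) ℂ, φ (algebraMap (MvPolynomial (Fin n) ℂ) (Rn n) P) =
      aeval y P := fun P => hind.aevalEquivField_algebraMap_apply_coe P
  have hφx : ∀ i, φ (dh H i) = (τ 0 ^ 3)⁻¹ * x i := by
    intro i
    unfold dh
    rw [hφP, hxy, inv_mul_cancel_left₀ (pow_ne_zero _ h0), comp_aeval_apply]
    congr 2
    funext l
    refine Fin.cases ?_ (fun l => ?_) l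
    · rw [Fin.cons_zero, Fin.cons_zero, map_one]
    · rw [Fin.cons_succ, Fin.cons_succ, aeval_X]
  have hxG := gp_smul hF hG (inv_ne_zero (pow_ne_zero 3 h0))
  have hφd : (fun i => φ (dh H i)) = fun i => (τ 0 ^ 3)⁻¹ * x i := funext hφx
  have hcomp : ∀ P : MvPolynomial (Fin (n + 2)) ℂ, φ (aeval (dh H) P) =
      aeval (fun i => (τ 0 ^ 3)⁻¹ * x i) P := by
    intro P
    rw [comp_aeval_apply, hφd]
  have hdG : Gp F (dh H) := by
    refine ⟨φ.toRingHom.injective (by
      change φ (aeval (dh H) F) = φ 0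
      rw [hcomp, map_zero, hxG.1.1]), fun e P hP hP0 => ?_⟩
    refine hxG.1.2 e P hP ?_
    rw [← hcomp, hP0, map_zero]
  have hmap : (ratioField (dh H)).map φ = ratioField x := by
    rw [← hxG.2, ← hφd]
    unfold ratioField
    rw [IntermediateField.adjoin_map]
    congr 1
    ext z
    constructor
    · rintro ⟨_, ⟨i, j, rfl⟩, rfl⟩
      exact ⟨i, j, by rw [map_div₀]⟩
    · rintro ⟨i, j, rfl⟩
      exact ⟨_, ⟨i, j, rfl⟩, by rw [map_div₀]⟩
  have hdodd : Odd (finrank (ratioField (dh H)) (Rn n)) := by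
    let _ : Algebra (Rn n) M := φ.toRingHom.toAlgebra
    have htow := Module.finrank_mul_finrank (ratioField (dh H)) (Rn n) M
    have hsame := (Pool.Agent.Y201.LI.finrank_same (A := ratioField (dh H))
      (B := ratioField x) (Ω := M) (fun z => by
        have hr2 : z ∈ Set.range (algebraMap (ratioField x) M) ↔ z ∈ ratioField x := by
          constructor
          · rintro ⟨z, rfl⟩
            exact z.2
          · intro h
            exact ⟨⟨z, h⟩, rfl⟩
        rw [hr2, ← hmap]
        constructor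
        · rintro ⟨z, rfl⟩
          exact ⟨z.1, z.2, rfl⟩
        · rintro ⟨z, hz, rfl⟩
          exact ⟨⟨z, hz⟩, rfl⟩)).2
    rw [← hsame, ← htow, Nat.odd_mul] at hodd
    exact hodd.1
  set G : Fin (n + 2) → MvPolynomial (Fin n) ℂ := fun i =>
    aeval (Fin.cons 1 X : Fin (n + 1) → MvPolynomial (Fin n) ℂ) (H i) with hGd
  have hdh : dh H = fun i => algebraMap (MvPolynomial (Fin n) ℂ) (Rn n) (G i) := rfl
  have hGdeg : ∀ i, (G i).totalDegree ≤ 3 := by
    intro i
    have h1 : ∀ l, ((Fin.cons 1 X : Fin (n + 1) → MvPolynomial (Fin n) ℂ) l).totalDegree ≤ 1 := by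
      intro l
      refine Fin.cases ?_ (fun l => ?_) l
      · rw [Fin.cons_zero, totalDegree_one]
        exact Nat.zero_le _
      · rw [Fin.cons_succ, totalDegree_X]
    have hg : (H i).totalDegree ≤ 3 := (hH i).totalDegree_le
    rw [hGd]
    simp only
    rw [(H i).as_sum, map_sum]
    refine totalDegree_finsetSum_le fun α hα => ?_
    rw [aeval_monomial]
    refine (totalDegree_mul _ _).trans ?_
    rw [algebraMap_eq, totalDegree_C, zero_add, Finsupp.prod]
    refine (totalDegree_finsetProd _ _).trans ?_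
    have h2 : ∑ l ∈ α.support, ((Fin.cons 1 X : Fin (n + 1) → MvPolynomial (Fin n) ℂ) l ^
        α l).totalDegree ≤ ∑ l ∈ α.support, α l := by
      refine Finset.sum_le_sum fun l _ => ?_
      refine (totalDegree_pow _ _).trans ?_
      calc α l * ((Fin.cons 1 X : Fin (n + 1) → MvPolynomial (Fin n) ℂ) l).totalDegree ≤ α l * 1 :=
            Nat.mul_le_mul_left _ (h1 l)
        _ = α l := mul_one _
    refine h2.trans ?_
    have h3 := le_totalDegree hα
    exact h3.trans hg
  have hGF : aeval G F = 0 := by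
    have h1 := comp_aeval_apply (f := H)
      (aeval (Fin.cons 1 X : Fin (n + 1) → MvPolynomial (Fin n) ℂ)) F
    rw [hHF, map_zero] at h1
    exact h1.symm
  have hdom : ∀ e (P : MvPolynomial (Fin (n + 2)) ℂ), P.IsHomogeneous e → aeval G P = 0 →
      F ∣ P := by
    intro e P hP hP0
    refine hdG.2 e P hP ?_
    have h1 := comp_aeval_apply (φ := IsScalarTower.toAlgHom ℂ (MvPolynomial (Fin n) ℂ) (Rn n)) G P
    rw [hP0, map_zero] at h1
    exact h1.symm
  obtain ⟨b, hb, hHb⟩ := Pool.Agent.Helper2K9.Cub.exists_base hn hF hsm G hGdeg hGF hdom H hH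
    hdh hHF
  obtain ⟨-, k, m, σ, U, -, hW, -, hiso⟩ := Pool.Agent.Helper2K9.Cub.base_iso (by omega) hF hsm
    H hH hHF hdG hdodd b hb hHb
  exact ⟨k, m, σ, U, hW, hiso⟩

/-- cubic forms in at most `n + 1` variables -/
theorem base_all {n P : ℕ} (hn : 3 ≤ n) (hP : P ≤ n + 1) {F : MvPolynomial (Fin (n + 2)) ℂ}
    (hF : F.IsHomogeneous 3) (hsm : Sm F)
    (H : Fin (n + 2) → MvPolynomial (Fin P) ℂ) (hH : ∀ i, (H i).IsHomogeneous 3)
    (hHF : aeval H F = 0) {M : Type} [Field M] [Algebra ℂ M] (τ : Fin P → M)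
    (hG : Gp F (fun i => aeval τ (H i)))
    (hodd : Odd (finrank (ratioField fun i => aeval τ (H i)) M)) :
    ∃ (k m : ℕ) (σ : Fin (k + 1 + (m + 1)) ≃ Fin (n + 2)) (U : Fin (k + 1) → Fin (m + 1) → ℂ),
      VanW (shear U (rename σ.symm F)) ∧ Iso (shear U (rename σ.symm F)) := by
  classical
  have hx0 := coord_ne_zero hF (by norm_num) _ hG.2 0
  obtain ⟨l0, hl0⟩ : ∃ l, τ l ≠ 0 := by
    by_contra hcon
    push Not at hcon
    apply hx0
    have h1 : τ = fun i => (0 : M) * τ i := by
      funext i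
      rw [hcon i, mul_zero]
    rw [h1, aeval_smul_form (hH 0)]
    ring
  set f : Fin P → Fin (n + 1) := fun l => Equiv.swap (Fin.castLE hP l0) 0 (Fin.castLE hP l) with hf
  have hfi : Function.Injective f := by
    intro a b hab
    exact Fin.castLE_injective hP ((Equiv.swap (Fin.castLE hP l0) 0).injective hab)
  have hf0 : f l0 = 0 := by
    rw [hf]
    simp only
    rw [Equiv.swap_apply_left]
  set τ' : Fin (n + 1) → M := Function.extend f τ 0 with hτ'
  have hτf : τ' ∘ f = τ := Function.extend_comp hfi τ 0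
  have hev : ∀ i, aeval τ' (rename f (H i)) = aeval τ (H i) := by
    intro i
    rw [aeval_rename, hτf]
  have hevf : (fun i => aeval τ' (rename f (H i))) = fun i => aeval τ (H i) := funext hev
  refine base_case hn hF hsm (fun i => rename f (H i))
    (fun i => (hH i).rename_isHomogeneous) ?_ τ' ?_ ?_ ?_
  · have h1 := comp_aeval_apply (f := H) (rename f : MvPolynomial (Fin P) ℂ →ₐ[ℂ] _) F
    rw [hHF, map_zero] at h1
    exact h1.symm
  · rw [← hf0]
    have h1 := congrFun hτf l0
    rw [Function.comp_apply] at h1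
    rw [h1]
    exact hl0
  · rw [hevf]
    exact hG
  · rw [hevf]
    exact hodd

/-- cubic forms in any number of variables -/
theorem any_iso {n : ℕ} (hn : 3 ≤ n) {F : MvPolynomial (Fin (n + 2)) ℂ}
    (hF : F.IsHomogeneous 3) (hsm : Sm F) {M : Type} [Field M] [Algebra ℂ M] :
    ∀ (P : ℕ) (H : Fin (n + 2) → MvPolynomial (Fin P) ℂ) (_ : ∀ i, (H i).IsHomogeneous 3)
    (_ : aeval H F = 0) (τ : Fin P → M) (_ : Gp F (fun i => aeval τ (H i)))
    (_ : Odd (finrank (ratioField fun i => aeval τ (H i)) M)),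
    ∃ (k m : ℕ) (σ : Fin (k + 1 + (m + 1)) ≃ Fin (n + 2)) (U : Fin (k + 1) → Fin (m + 1) → ℂ),
      VanW (shear U (rename σ.symm F)) ∧ Iso (shear U (rename σ.symm F)) := by
  have hF0 : F ≠ 0 := ne_zero_of_smooth (m := n + 1) hsm
  intro P
  induction P with
  | zero =>
    intro H hH hHF τ hG hodd
    exact base_all hn (by omega) hF hsm H hH hHF τ hG hodd
  | succ Q ih =>
    intro H hH hHF τ hG hodd
    by_cases hQ : Q + 1 ≤ n + 1
    · exact base_all hn hQ hF hsm H hH hHF τ hG hodd
    obtain ⟨b, hb, hHb⟩ := exists_base_pt (n := n) (P := Q + 1) (by omega) hF hF0 H hH hHF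
    rcases step hF hsm H hH hHF b hb hHb τ hG hodd with h | ⟨H', τ', c, hc, hH', hHF', hx⟩
    · exact h
    · obtain ⟨h1, h2⟩ := gp_smul hF hG hc
      have h3 : (fun i => aeval τ' (H' i)) = fun i => c * aeval τ (H i) := funext hx
      refine ih H' hH' hHF' τ' ?_ ?_
      · rw [h3]
        exact h1
      · rw [h3, h2]
        exact hodd

end

end Pool.Agent.Helper52K9.CUB
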