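import Mathlib
import Pool.Agent.Helper52K9.CUB.Base

/-! # Specialization of points over a purely transcendental extension -/

set_option autoImplicit false

namespace Pool.Agent.Helper52K9.CUB

open MvPolynomial Pool.Agent.TH314.PD Pool.Agent.R845.E3

noncomputable section

/-- a finite set of elements of a purely transcendental extension `E = K(y)` can be specialized
to `K` -/
theorem specialize {K E : Type} [Field K] [Infinite K] [Field E] [Algebra K E] {ι : Type}
    (y : ι → E) (hy : AlgebraicIndependent K y)
    (hE : IntermediateField.adjoin K (Set.range y) = ⊤) {κ : Type} [Fintype κ] (z : κ → E) :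
    ∃ (B : Type) (_ : CommRing B) (_ : Algebra K B) (f : B →ₐ[K] E) (ev : B →ₐ[K] K) (b : κ → B),
      Function.Injective f ∧ ∀ i, f (b i) = z i := by
  classical
  have h1 : ∀ i, ∃ r s : MvPolynomial ι K, s ≠ 0 ∧ aeval y s * z i = aeval y r := by
    intro i
    have hz : z i ∈ IntermediateField.adjoin K (Set.range y) := by
      rw [hE]
      exact IntermediateField.mem_top
    obtain ⟨r, s, h⟩ := (IntermediateField.mem_adjoin_range_iff K y (z i)).1 hz
    by_cases hs : aeval y s = 0
    · exact ⟨0, 1, one_ne_zero, by rw [h, hs, div_zero, mul_zero, map_zero]⟩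
    · refine ⟨r, s, ?_, by rw [h, mul_div_cancel₀ _ hs]⟩
      rintro rfl
      exact hs (map_zero _)
  choose r s hs hz using h1
  set g : MvPolynomial ι K := ∏ i, s i with hg
  have hg0 : g ≠ 0 := Finset.prod_ne_zero_iff.2 fun i _ => hs i
  have hinj : Function.Injective (aeval y : MvPolynomial ι K →ₐ[K] E) := hy
  have hgy : aeval y g ≠ 0 := fun h => hg0 (hinj (h.trans (map_zero _).symm))
  obtain ⟨c, hc⟩ : ∃ c : ι → K, eval c g ≠ 0 := by
    by_contra hcon
    push Not at hcon
    exact hg0 (MvPolynomial.funext fun c => by rw [hcon c, map_zero])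
  let B := Localization.Away g
  let f : B →ₐ[K] E := IsLocalization.liftAlgHom (M := Submonoid.powers g) (S := B)
    (f := (aeval y : MvPolynomial ι K →ₐ[K] E)) (by
      rintro ⟨_, k, rfl⟩
      rw [map_pow]
      exact (isUnit_iff_ne_zero.2 hgy).pow k)
  let ev : B →ₐ[K] K := IsLocalization.liftAlgHom (M := Submonoid.powers g) (S := B)
    (f := (aeval c : MvPolynomial ι K →ₐ[K] K)) (by
      rintro ⟨_, k, rfl⟩
      rw [map_pow]
      exact (isUnit_iff_ne_zero.2 (by rw [aeval_eq_eval]; exact hc)).pow k)
  have hfa : ∀ a : MvPolynomial ι K, f (algebraMap _ B a) = aeval y a := by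
    intro a
    simp only [f, IsLocalization.liftAlgHom_apply, IsLocalization.lift_eq]
    rfl
  have hfinj : Function.Injective f := by
    rw [injective_iff_map_eq_zero]
    intro x hx
    obtain ⟨⟨a, t⟩, h⟩ := IsLocalization.surj (Submonoid.powers g) x
    simp only at h
    have h2 := congrArg f h
    rw [map_mul, hx, zero_mul, hfa] at h2
    have ha : a = 0 := hinj (h2.symm.trans (map_zero _).symm)
    rw [ha, map_zero] at h
    exact (IsLocalization.map_units B t).mul_left_eq_zero.1 h
  refine ⟨B, inferInstance, inferInstance, f, ev,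
    fun i => IsLocalization.mk' B (r i * ∏ j ∈ Finset.univ.erase i, s j)
      (⟨g, 1, pow_one g⟩ : Submonoid.powers g), hfinj, fun i => ?_⟩
  have h3 := congrArg f (IsLocalization.mk'_spec B (r i * ∏ j ∈ Finset.univ.erase i, s j)
    (⟨g, 1, pow_one g⟩ : Submonoid.powers g))
  rw [map_mul, hfa, hfa] at h3
  refine mul_right_cancel₀ hgy (h3.trans ?_)
  rw [map_mul, ← hz i, mul_comm (aeval y (s i)) (z i), mul_assoc, ← map_mul, hg,
    Finset.mul_prod_erase _ _ (Finset.mem_univ i)]

/-- a stable birational parametrization has a rational section -/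
theorem stable_pt {n N : ℕ} {F : MvPolynomial (Fin (n + 2)) ℂ} (hF : F.IsHomogeneous 3)
    {E : Type} [Field E] [Algebra ℂ E] (G : Fin (n + 2) → MvPolynomial (Fin N) ℂ) (t : Fin N → E)
    (hG : Gp F (fun i => aeval t (G i))) {ι : Type} (y : ι → E)
    (hy : AlgebraicIndependent (ratioField fun i => aeval t (G i)) y)
    (hE : IntermediateField.adjoin (ratioField fun i => aeval t (G i)) (Set.range y) = ⊤) :
    ∃ τ : Fin N → (ratioField fun i => aeval t (G i)),
      Gp F (fun i => aeval τ (G i)) ∧
      Module.finrank (ratioField fun i => aeval τ (G i)) (ratioField fun i => aeval t (G i)) = 1 := by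
  classical
  set x : Fin (n + 2) → E := fun i => aeval t (G i) with hx
  set K := ratioField x with hK
  have hx0 : ∀ i, x i ≠ 0 := Pool.Agent.R845.T2.coord_ne_zero hF (by norm_num) x hG.2
  have : Infinite K := Infinite.of_injective _ (algebraMap ℂ K).injective
  obtain ⟨B, _, _, f, ev, b, hf, hb⟩ := specialize y hy hE
    (Option.elim · (x 0)⁻¹ t : Option (Fin N) → E)
  have hub : ∀ i, x i / x 0 ∈ K := fun i => IntermediateField.subset_adjoin _ _ ⟨i, 0, rfl⟩
  set u : Fin (n + 2) → K := fun i => ⟨x i / x 0, hub i⟩ with hu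
  set G' : Fin (n + 2) → MvPolynomial (Fin N) K := fun i => map (algebraMap ℂ K) (G i) with hG'
  set bt : Fin N → B := fun j => b (some j) with hbt
  have hfG : ∀ i, f (aeval bt (G' i)) = x i := by
    intro i
    rw [comp_aeval_apply, hx]
    simp only
    rw [hG']
    simp only
    rw [aeval_map_algebraMap]
    congr 2
    funext j
    exact hb (some j)
  have hc : aeval bt (G' 0) * b none = 1 := by
    apply hf
    rw [map_mul, hfG, hb none, map_one]
    exact mul_inv_cancel₀ (hx0 0)
  have hbG : ∀ i, aeval bt (G' i) = aeval bt (G' 0) * algebraMap K B (u i) := by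
    intro i
    apply hf
    rw [map_mul, hfG, hfG, f.commutes]
    change x i = x 0 * (x i / x 0)
    rw [mul_div_cancel₀ _ (hx0 0)]
  set τ : Fin N → K := fun j => ev (bt j) with hτ
  have hevG : ∀ i, aeval τ (G i) = ev (aeval bt (G' i)) := by
    intro i
    rw [comp_aeval_apply, hG']
    simp only
    rw [aeval_map_algebraMap]
  set c : K := ev (aeval bt (G' 0)) with hcd
  have hc0 : c ≠ 0 := by
    intro h
    have h1 := congrArg ev hc
    rw [map_mul, ← hcd, h, zero_mul, map_one] at h1
    exact zero_ne_one h1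
  have hval : (fun i => aeval τ (G i)) = fun i => c * u i := by
    funext i
    rw [hevG, hbG, map_mul, ev.commutes]
    rfl
  have hcoe : (fun i => ((u i : K) : E)) = fun i => (x 0)⁻¹ * x i := by
    funext i
    change x i / x 0 = _
    rw [div_eq_inv_mul]
  have hcomp : ∀ P : MvPolynomial (Fin (n + 2)) ℂ, K.val (aeval u P) =
      aeval (fun i => (x 0)⁻¹ * x i) P := by
    intro P
    rw [comp_aeval_apply]
    congr 2
  have hxG := gp_smul hF hG (inv_ne_zero (hx0 0))
  have huG : Gp F u := by
    refine ⟨K.val.toRingHom.injective (by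
      change K.val (aeval u F) = K.val 0
      rw [hcomp, map_zero, hxG.1.1]), fun e P hP hP0 => ?_⟩
    refine hxG.1.2 e P hP ?_
    rw [← hcomp, hP0, map_zero]
  obtain ⟨h1, h2⟩ := gp_smul hF huG hc0
  refine ⟨τ, by rw [hval]; exact h1, ?_⟩
  have htop : ratioField u = (⊤ : IntermediateField ℂ K) := by
    have h3 : (ratioField u).map K.val = K := by
      refine Eq.trans ?_ (hxG.2.trans hK.symm)
      rw [← hcoe]
      unfold ratioField
      rw [IntermediateField.adjoin_map]
      congr 1
      ext z
      constructor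
      · rintro ⟨_, ⟨i, j, rfl⟩, rfl⟩
        exact ⟨i, j, by rw [map_div₀]; rfl⟩
      · rintro ⟨i, j, rfl⟩
        exact ⟨_, ⟨i, j, rfl⟩, by rw [map_div₀]; rfl⟩
    rw [eq_top_iff]
    intro z _
    have h4 : (z : E) ∈ (ratioField u).map K.val := by
      rw [h3]
      exact z.2
    obtain ⟨w, hw, hwz⟩ := h4
    have h5 : w = z := K.val.toRingHom.injective hwz
    rw [← h5]
    exact hw
  rw [hval, h2, htop]
  exact IntermediateField.finrank_top

end

end Pool.Agent.Helper52K9.CUB
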